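import Pool.Agent.H454.PF.Stm2
import Pool.Graph.R_pool_sql_team_seeded_63374d34.N963.GN.W
import Pool.Graph.R_pool_sql_team_seeded_63374d34.N134.GN.C2
import Pool.Graph.R_pool_sql_team_seeded_63374d34.N525.GN.C5

/-!
# PF-EX1: existence of preimages under `φ(D)`, `φ 0 ≠ 0` (helper157)
-/

set_option autoImplicit false

namespace Pool.Agent.H157.PF

open Complex Filter Topology MeasureTheory Polynomial
open scoped ComplexConjugate
open Pool.Agent.N963.GN Pool.Agent.H454.PF

/-- real-rooted polynomials are minimal at `0` on the imaginary axis -/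
theorem poly_ge (Q : ℝ[X]) (hr : ∀ w : ℂ, aeval w Q = 0 → w.im = 0) (u : ℝ) :
    ‖aeval (0 : ℂ) Q‖ ≤ ‖aeval (I * (u : ℂ)) Q‖ := by
  have hQ : Q ≠ 0 := by
    rintro rfl
    have := hr I (by simp)
    simp at this
  set P : ℂ[X] := Q.map (algebraMap ℝ ℂ) with hP
  have hP0 : P ≠ 0 := (Polynomial.map_ne_zero_iff (algebraMap ℝ ℂ).injective).2 hQ
  have he : ∀ w : ℂ, aeval w Q = P.eval w := fun w => by rw [hP, eval_map_algebraMap]
  rw [he, he]
  have h1 : P = C P.leadingCoeff * (P.roots.map fun x => X - C x).prod :=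
    (IsAlgClosed.splits P).eq_prod_roots
  have hroot : ∀ x ∈ P.roots, x.im = 0 := by
    intro x hx
    refine hr x ?_
    rw [he]
    exact (mem_roots hP0).1 hx
  have key : ∀ R : Multiset ℂ, (∀ x ∈ R, x.im = 0) →
      ‖((R.map fun x => X - C x).prod : ℂ[X]).eval 0‖ ≤
        ‖((R.map fun x => X - C x).prod : ℂ[X]).eval (I * (u : ℂ))‖ := by
    intro R
    induction R using Multiset.induction_on with
    | empty => intro _; simp
    | cons a R ih =>
      intro h
      have ha : a.im = 0 := h a (Multiset.mem_cons_self a R)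
      have h2 := ih fun x hx => h x (Multiset.mem_cons_of_mem hx)
      simp only [Multiset.map_cons, Multiset.prod_cons, eval_mul, norm_mul, eval_sub, eval_X,
        eval_C]
      refine mul_le_mul ?_ h2 (norm_nonneg _) (norm_nonneg _)
      have h3 : (0 - a).re = (I * (u : ℂ) - a).re := by simp
      have h4 : ‖(0 : ℂ) - a‖ = |(0 - a).re| := by
        have h5 : (0 : ℂ) - a = (((0 - a).re : ℝ) : ℂ) := by
          apply Complex.ext
          · simp
          · simp [ha]
        calc ‖(0 : ℂ) - a‖ = ‖(((0 - a).re : ℝ) : ℂ)‖ := by rw [← h5]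
          _ = |(0 - a).re| := by rw [Complex.norm_real, Real.norm_eq_abs]
      rw [h4, h3]
      exact Complex.abs_re_le_norm _
  have h2 := key P.roots hroot
  rw [h1, eval_mul, eval_mul, norm_mul, norm_mul, eval_C, eval_C]
  exact mul_le_mul_of_nonneg_left h2 (norm_nonneg _)

/-- the derivatives of the transform -/
theorem iter_Lt {h : ℝ → ℂ} (hh : Wt h) (n : ℕ) :
    Wt (fun u => h u * (I * u) ^ n) ∧ iteratedDeriv n (Lt h) = Lt (fun u => h u * (I * u) ^ n) := by
  induction n with
  | zero =>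
    refine ⟨?_, ?_⟩
    · have : (fun u : ℝ => h u * (I * (u : ℂ)) ^ 0) = h := by
        funext u; simp
      rw [this]; exact hh
    · rw [iteratedDeriv_zero]
      congr 1
      funext u; simp
  | succ n ih =>
    have e1 : (fun u : ℝ => h u * (I * (u : ℂ)) ^ (n + 1)) =
        fun u : ℝ => (h u * (I * (u : ℂ)) ^ n) * (I * (u : ℂ)) := by
      funext u
      rw [pow_succ]
      ring
    refine ⟨?_, ?_⟩
    · rw [e1]
      exact ih.1.mulId
    · rw [iteratedDeriv_succ, ih.2, deriv_Lt ih.1, e1]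

theorem t_EX1 : S_EX1 := by
  intro φ hφ hφ0 k hk
  obtain ⟨hne, Q, hQr, hQl⟩ := hφ
  obtain ⟨M, hM, N0, hN0⟩ := Pool.Agent.N134.GN.c2 φ Q hne hQr hQl
  have hQd : ∀ N, Differentiable ℂ (fun w : ℂ => aeval w (Q N)) := fun N =>
    Polynomial.differentiable_aeval (Q N)
  have hd : Differentiable ℂ φ := by
    rw [← differentiableOn_univ]
    exact (tendstoLocallyUniformlyOn_univ.2 hQl).differentiableOn
      (Eventually.of_forall fun N => (hQd N).differentiableOn) isOpen_univ
  have hpt : ∀ s, Tendsto (fun N => aeval s (Q N)) atTop (𝓝 (φ s)) := fun s =>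
    (tendstoLocallyUniformlyOn_univ.2 hQl).tendsto_at (Set.mem_univ s)
  have hb : ∀ s, ‖φ s‖ ≤ M * Real.exp (M * ‖s‖ ^ 2) := fun s =>
    le_of_tendsto (hpt s).norm (eventually_atTop.2 ⟨N0, fun N hN => hN0 N hN s⟩)
  have hs : Sym φ := by
    intro s
    refine tendsto_nhds_unique (hpt (conj s)) ?_
    have h1 := (Complex.continuous_conj.tendsto (φ s)).comp (hpt s)
    refine h1.congr fun N => ?_
    show conj (aeval s (Q N)) = aeval (conj s) (Q N)
    rw [Polynomial.aeval_conj]
  -- lower bound on the imaginary axis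
  have hlow : ∀ u : ℝ, ‖φ 0‖ ≤ ‖φ (I * u)‖ := by
    intro u
    exact le_of_tendsto_of_tendsto' (hpt 0).norm (hpt (I * u)).norm fun N => poly_ge (Q N) (hQr N) u
  have hp0 : 0 < ‖φ 0‖ := norm_pos_iff.2 hφ0
  have hne2 : ∀ u : ℝ, φ (I * u) ≠ 0 := fun u => norm_pos_iff.1 (hp0.trans_le (hlow u))
  refine ⟨hlow, ?_⟩
  -- the weight
  obtain ⟨h, hh⟩ : ∃ h : ℝ → ℂ, h = fun u : ℝ => k u / φ (I * u) := ⟨_, rfl⟩
  rw [← hh]
  have hhb : ∀ u : ℝ, ‖h u‖ ≤ 1 / ‖φ 0‖ * ‖k u‖ := by
    intro u
    rw [hh]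
    show ‖k u / φ (I * u)‖ ≤ _
    rw [norm_div, one_div, inv_mul_eq_div]
    exact div_le_div_of_nonneg_left (norm_nonneg _) hp0 (hlow u)
  have hmeas : Measurable h := by
    rw [hh]
    refine hk.meas.div ?_
    exact (hd.continuous.comp (continuous_const.mul Complex.continuous_ofReal)).measurable
  have habs : ∀ u : ℝ, |u| ≤ 1 + u ^ 2 := by
    intro u
    nlinarith [sq_nonneg (|u| - 1), sq_abs u, abs_nonneg u]
  have hkexp : ∀ R : ℝ, 0 ≤ R → Integrable (fun u : ℝ => ‖k u‖ * Real.exp (R * |u|)) := by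
    intro R hR
    refine ((hk.mom R).const_mul (Real.exp R)).mono' ?_ (Eventually.of_forall fun u => ?_)
    · exact (hk.meas.norm.mul (by fun_prop)).aestronglyMeasurable
    · rw [Real.norm_of_nonneg (by positivity)]
      have h1 : Real.exp (R * |u|) ≤ Real.exp R * Real.exp (R * u ^ 2) := by
        rw [← Real.exp_add]
        refine Real.exp_le_exp.2 ?_
        have := mul_le_mul_of_nonneg_left (habs u) hR
        linarith
      calc ‖k u‖ * Real.exp (R * |u|) ≤ ‖k u‖ * (Real.exp R * Real.exp (R * u ^ 2)) :=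
            mul_le_mul_of_nonneg_left h1 (norm_nonneg _)
        _ = Real.exp R * (‖k u‖ * Real.exp (R * u ^ 2)) := by ring
  have hWt : Wt h := by
    refine Wt.of_norm hmeas.aestronglyMeasurable fun R hR => ?_
    refine ((hkexp R hR).const_mul (1 / ‖φ 0‖)).mono' ?_ (Eventually.of_forall fun u => ?_)
    · exact (hmeas.norm.mul (by fun_prop)).aestronglyMeasurable
    · rw [Real.norm_of_nonneg (by positivity), ← mul_assoc]
      exact mul_le_mul_of_nonneg_right (hhb u) (Real.exp_pos _).le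
  have hherm : ∀ u : ℝ, h (-u) = conj (h u) := by
    intro u
    rw [hh]
    show k (-u) / φ (I * ((-u : ℝ) : ℂ)) = conj (k u / φ (I * u))
    rw [map_div₀, hk.herm, ← hs]
    congr 2
    simp
  refine ⟨diff_Lt hWt, sym_Lt hherm, ?_, ?_⟩
  · -- growth
    obtain ⟨C, hC, hg⟩ := hk.gro
    refine ⟨C + |Real.log (1 / ‖φ 0‖)|, 3 / 2, by positivity, by norm_num, by norm_num, fun z => ?_⟩
    have h1 := norm_Lt_le hWt z
    have h2 : ∫ u : ℝ, ‖h u‖ * Real.exp (‖z‖ * |u|) ≤
        ∫ u : ℝ, 1 / ‖φ 0‖ * (‖k u‖ * Real.exp (‖z‖ * |u|)) := by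
      refine integral_mono (hWt.norm_int ‖z‖) ((hkexp ‖z‖ (norm_nonneg z)).const_mul _) fun u => ?_
      show ‖h u‖ * Real.exp (‖z‖ * |u|) ≤ 1 / ‖φ 0‖ * (‖k u‖ * Real.exp (‖z‖ * |u|))
      rw [← mul_assoc]
      exact mul_le_mul_of_nonneg_right (hhb u) (Real.exp_pos _).le
    rw [integral_const_mul] at h2
    have h3 : (1 : ℝ) ≤ (1 + ‖z‖) ^ (3 / 2 : ℝ) :=
      Real.one_le_rpow (by linarith [norm_nonneg z]) (by norm_num)
    have h4 : 1 / ‖φ 0‖ ≤ Real.exp (|Real.log (1 / ‖φ 0‖)| * (1 + ‖z‖) ^ (3 / 2 : ℝ)) := by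
      have h5 : 1 / ‖φ 0‖ = Real.exp (Real.log (1 / ‖φ 0‖)) :=
        (Real.exp_log (by positivity)).symm
      calc 1 / ‖φ 0‖ = Real.exp (Real.log (1 / ‖φ 0‖)) := h5
        _ ≤ _ := by
          refine Real.exp_le_exp.2 ((le_abs_self _).trans ?_)
          exact le_mul_of_one_le_right (abs_nonneg _) h3
    calc ‖Lt h z‖ ≤ 1 / ‖φ 0‖ * ∫ u : ℝ, ‖k u‖ * Real.exp (‖z‖ * |u|) := h1.trans h2
      _ ≤ Real.exp (|Real.log (1 / ‖φ 0‖)| * (1 + ‖z‖) ^ (3 / 2 : ℝ)) *
          Real.exp (C * (1 + ‖z‖) ^ (3 / 2 : ℝ)) := by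
          refine mul_le_mul h4 (hg ‖z‖ (norm_nonneg z)) ?_ (Real.exp_pos _).le
          exact integral_nonneg fun u => by positivity
      _ = Real.exp ((C + |Real.log (1 / ‖φ 0‖)|) * (1 + ‖z‖) ^ (3 / 2 : ℝ)) := by
          rw [← Real.exp_add]
          congr 1
          ring
  · -- the sum
    intro z
    obtain ⟨co, hco⟩ : ∃ co : ℕ → ℂ, co = fun n => iteratedDeriv n φ 0 / (n.factorial : ℂ) :=
      ⟨_, rfl⟩
    have htrm : ∀ n, trm φ (Lt h) z n =
        ∫ u : ℝ, co n * (h u * (I * u) ^ n * cexp (I * z * u)) := by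
      intro n
      unfold trm
      rw [(iter_Lt hWt n).2, hco]
      unfold Lt
      rw [integral_const_mul]
    have hcb : ∀ (n : ℕ) (u : ℝ), ‖co n‖ * |u| ^ n ≤
        M * Real.exp (2 * M) * Real.exp (8 * M * u ^ 2) * (1 / 2) ^ n := by
      intro n u
      have hR : (0 : ℝ) < 2 * |u| + 1 := by positivity
      have hsph : ∀ w ∈ Metric.sphere (0 : ℂ) (2 * |u| + 1),
          ‖φ w‖ ≤ M * Real.exp (2 * M) * Real.exp (8 * M * u ^ 2) := by
        intro w hw
        rw [mem_sphere_iff_norm, sub_zero] at hw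
        refine (hb w).trans ?_
        rw [hw, mul_assoc, ← Real.exp_add]
        refine mul_le_mul_of_nonneg_left (Real.exp_le_exp.2 ?_) hM
        have h1 : (2 * |u| + 1) ^ 2 ≤ 2 + 8 * u ^ 2 := by
          nlinarith [sq_nonneg (2 * |u| - 1), sq_abs u]
        have h2 := mul_le_mul_of_nonneg_left h1 hM
        linarith
      have h1 := Complex.norm_iteratedDeriv_le_of_forall_mem_sphere_norm_le n hR
        (hd.diffContOnCl (s := Metric.ball 0 _)) hsph
      have h2 : ‖co n‖ ≤ M * Real.exp (2 * M) * Real.exp (8 * M * u ^ 2) / (2 * |u| + 1) ^ n := by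
        rw [hco]
        show ‖iteratedDeriv n φ 0 / (n.factorial : ℂ)‖ ≤ _
        rw [norm_div, Complex.norm_natCast, div_le_iff₀ (by positivity)]
        refine h1.trans (le_of_eq ?_)
        ring
      calc ‖co n‖ * |u| ^ n ≤
            M * Real.exp (2 * M) * Real.exp (8 * M * u ^ 2) / (2 * |u| + 1) ^ n * |u| ^ n :=
            mul_le_mul_of_nonneg_right h2 (by positivity)
        _ = M * Real.exp (2 * M) * Real.exp (8 * M * u ^ 2) * (|u| / (2 * |u| + 1)) ^ n := by
            rw [div_pow]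
            ring
        _ ≤ _ := by
            refine mul_le_mul_of_nonneg_left (pow_le_pow_left₀ (by positivity) ?_ n) (by positivity)
            rw [div_le_div_iff₀ hR (by norm_num)]
            linarith
    have hFb : ∀ (n : ℕ) (u : ℝ), ‖co n * (h u * (I * u) ^ n * cexp (I * z * u))‖ ≤
        1 / ‖φ 0‖ * (M * Real.exp (2 * M) * Real.exp ‖z‖) *
          (‖k u‖ * Real.exp ((8 * M + ‖z‖) * u ^ 2)) * (1 / 2) ^ n := by
      intro n u
      rw [norm_mul, norm_mul, norm_mul, norm_pow, norm_mul, Complex.norm_I, one_mul,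
        Complex.norm_real, Real.norm_eq_abs]
      have h1 : ‖cexp (I * z * u)‖ ≤ Real.exp ‖z‖ * Real.exp (‖z‖ * u ^ 2) := by
        refine (norm_cexp_le z u).trans ?_
        rw [← Real.exp_add]
        refine Real.exp_le_exp.2 ?_
        have := mul_le_mul_of_nonneg_left (habs u) (norm_nonneg z)
        linarith
      calc ‖co n‖ * (‖h u‖ * |u| ^ n * ‖cexp (I * z * u)‖)
          = (‖co n‖ * |u| ^ n) * (‖h u‖ * ‖cexp (I * z * u)‖) := by ring
        _ ≤ (M * Real.exp (2 * M) * Real.exp (8 * M * u ^ 2) * (1 / 2) ^ n) *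
            ((1 / ‖φ 0‖ * ‖k u‖) * (Real.exp ‖z‖ * Real.exp (‖z‖ * u ^ 2))) := by
            refine mul_le_mul (hcb n u) ?_ (by positivity) (by positivity)
            exact mul_le_mul (hhb u) h1 (norm_nonneg _) (by positivity)
        _ = _ := by
            have h2 : Real.exp ((8 * M + ‖z‖) * u ^ 2) =
                Real.exp (8 * M * u ^ 2) * Real.exp (‖z‖ * u ^ 2) := by
              rw [← Real.exp_add]
              congr 1
              ring
            rw [h2]
            ring
    have hmain := hasSum_integral_of_dominated_convergence (μ := volume)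
      (F := fun (n : ℕ) (u : ℝ) => co n * (h u * (I * u) ^ n * cexp (I * z * u)))
      (f := fun u : ℝ => k u * cexp (I * z * u))
      (fun (n : ℕ) (u : ℝ) => 1 / ‖φ 0‖ * (M * Real.exp (2 * M) * Real.exp ‖z‖) *
          (‖k u‖ * Real.exp ((8 * M + ‖z‖) * u ^ 2)) * (1 / 2) ^ n)
      (fun n => by
        have h1 : Measurable fun u : ℝ => co n * (h u * (I * u) ^ n * cexp (I * z * u)) := by
          refine measurable_const.mul ((hmeas.mul ?_).mul ?_) <;> fun_prop
        exact h1.aestronglyMeasurable)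
      (fun n => Eventually.of_forall fun u => hFb n u)
      (Eventually.of_forall fun u =>
        (summable_geometric_of_lt_one (by norm_num) (by norm_num)).mul_left _)
      (by
        have h1 : (fun u : ℝ => ∑' n : ℕ, 1 / ‖φ 0‖ * (M * Real.exp (2 * M) * Real.exp ‖z‖) *
            (‖k u‖ * Real.exp ((8 * M + ‖z‖) * u ^ 2)) * (1 / 2) ^ n) =
            fun u : ℝ => (1 / ‖φ 0‖ * (M * Real.exp (2 * M) * Real.exp ‖z‖) * 2) *
              (‖k u‖ * Real.exp ((8 * M + ‖z‖) * u ^ 2)) := by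
          funext u
          rw [tsum_mul_left, tsum_geometric_two]
          ring
        rw [h1]
        exact (hk.mom (8 * M + ‖z‖)).const_mul _)
      (Eventually.of_forall fun u => by
        have h1 := Complex.hasSum_taylorSeries_of_entire hd 0 (I * u)
        have h2 := (h1.mul_left (h u * cexp (I * z * u)))
        have h3 : h u * cexp (I * z * u) * φ (I * u) = k u * cexp (I * z * u) := by
          rw [hh]
          show k u / φ (I * u) * cexp (I * z * u) * φ (I * u) = k u * cexp (I * z * u)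
          have := hne2 u
          field_simp
        rw [h3] at h2
        refine h2.congr_fun fun n => ?_
        rw [hco]
        show iteratedDeriv n φ 0 / (n.factorial : ℂ) * (h u * (I * u) ^ n * cexp (I * z * u)) =
          h u * cexp (I * z * u) * ((n.factorial : ℂ)⁻¹ • (I * u - 0) ^ n • iteratedDeriv n φ 0)
        rw [smul_eq_mul, smul_eq_mul, sub_zero]
        ring)
    have h1 : (fun n => trm φ (Lt h) z n) = fun n =>
        ∫ u : ℝ, co n * (h u * (I * u) ^ n * cexp (I * z * u)) := funext htrm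
    show HasSum (fun n => trm φ (Lt h) z n) (Lt k z)
    rw [h1]
    exact hmain

end Pool.Agent.H157.PF
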